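import Pool.Agent.R908.KqB

/-!
# The weights of the components of the forms given by numerically trivial classes
-/

open CategoryTheory AlgebraicGeometry TensorProduct Function

universe u v w w'

namespace Pool.Agent.N190.Bc

open Pool.Agent.H914 Pool.Agent.H914.VarClass Pool.Agent.H914.VarClass.Obj
  Pool.Agent.H914.WeilCohomology Pool.Agent.R908 Km

variable {k : Type u} [Field k] {𝒱 : VarClass k} {ops : CycleOps 𝒱}
  {W : WeilCohomology.{u, v} ops}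

/-- **The weights of the blocks, for all forms in at most `N` variables.** -/
theorem core {A : Mot W} {w : ℕ} {ε : W.K} {θ θ' : W.H A.X →ₗ[W.K] W.H A.X} {Q : Mot W → Prop}
    {Λ : Type} {S : Finset Λ} {bar : Λ → Λ} {p : Λ → (W.H A.X →ₗ[W.K] W.H A.X)}
    (h : SelfDual A w ε θ θ') (hb : Blocks A θ S bar p)
    (hQt : ∀ B B', Q B → Q B' → Q (B.tensor B'))
    (hQ : ∀ B, Q B → B.Num) (𝒢 : Set (Symmetry W)) (hAS : ∀ S ∈ 𝒢, Comm S A)
    (hθS : ∀ S ∈ 𝒢, SimTheta S θ) (hQS : ∀ S ∈ 𝒢, ∀ B, Q B → Comm S B)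
    (hirr : ∀ U : Submodule W.K (W.H A.X), U ≤ LinearMap.range A.e →
      (∀ (δ : ℤ) (φ : W.H A.X →ₗ[W.K] W.H A.X), φ ∈ KOp W A.X A.X δ → ∀ x ∈ U, A.e (φ x) ∈ U) →
      (∀ S ∈ 𝒢, ∀ x ∈ U, S.σ A.X x ∈ U) → ∀ l, (∃ x ∈ U, x ≠ 0 ∧ p l x = x) →
        ∀ y, p l y = y → y ∈ U) (N : ℕ) :
    ∃ v : Λ → ℝ, (∀ l, v (bar l) = -v l) ∧ ∀ n ≤ N, ∀ F ∈ FA A θ Q n,
      ∀ (x : Fin n → TT A) (l : Fin n → Λ), (∀ s, p (l s) (x s) = x s) → F x ≠ 0 →
        ∑ s, v (l s) < 0 := by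
  classical
  -- powers
  have hpow : ∀ n ≤ N, ∀ F ∈ FA A θ Q n, ∀ (x : Fin n → TT A) (l : Fin n → Λ),
      (∀ s, p (l s) (x s) = x s) → F x ≠ 0 →
      ∃ k : ℕ, 1 ≤ k ∧ ∃ G ∈ FA A θ Q N.factorial, ∃ x' : Fin N.factorial → TT A,
        ∃ l' : Fin N.factorial → Λ, G x' ≠ 0 ∧ (∀ s, p (l' s) (x' s) = x' s) ∧
        ∀ f : Λ → ℝ, ∑ s, f (l' s) = k * ∑ i, f (l i) := by
    intro n hn F hF x l hx hFx
    have hn0 : n ≠ 0 := by
      rintro rfl
      rw [FA_zero hQ hF] at hFx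
      exact hFx rfl
    obtain ⟨k, hk⟩ : n ∣ N.factorial := Nat.dvd_factorial (Nat.pos_of_ne_zero hn0) hn
    have hk1 : 1 ≤ k := by
      rcases Nat.eq_zero_or_pos k with h0 | h0
      · rw [h0, mul_zero] at hk
        exact absurd hk (Nat.factorial_ne_zero _)
      · exact h0
    obtain ⟨M, hM, G, hG, x', l', hGx, hPx, hsum⟩ := FA_pow h hQt hF hFx (l := l)
      (P := fun l x => p l (x : W.H A.X) = (x : W.H A.X)) hx k hk1
    obtain rfl : M = N.factorial := by rw [hM, hk]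
    exact ⟨k, hk1, G, hG, x', l', hGx, hPx, hsum⟩
  by_cases hall : ∀ F ∈ FA A θ Q N.factorial, F = 0
  · refine ⟨0, fun l => neg_zero.symm, ?_⟩
    intro n hn F hF x l hx hFx
    exfalso
    obtain ⟨k, hk, G, hG, x, l', hGx, -, -⟩ := hpow n hn F hF x l hx hFx
    apply hGx
    rw [hall G hG]
    rfl
  push Not at hall
  obtain ⟨F₀, hF₀, hF₀ne⟩ := hall
  obtain ⟨v, hv1, hv2⟩ := hb.exists_wts h hQt hQ 𝒢 hAS hθS hQS hirr hF₀ hF₀ne
  refine ⟨fun l => (v l - v (bar l)) / 2, fun l => by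
    change (v (bar l) - v (bar (bar l))) / 2 = -((v l - v (bar l)) / 2)
    rw [hb.bb]; ring, ?_⟩
  intro n hn F hF x l hx hFx
  obtain ⟨k, hk, G, hG, x, l', hGx, hPx, hsum⟩ := hpow n hn F hF x l hx hFx
  have h1 := hv2 G hG x l' hPx hGx
  have h3 : ∀ s, p (l' s) ≠ 0 := by
    intro s h0
    have h4 : x s = 0 := by
      apply Subtype.ext
      rw [← hPx s, h0]
      rfl
    obtain ⟨g, hg⟩ := FA_multi hG
    apply hGx
    rw [← hg]
    exact g.map_coord_zero s h4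
  have h5 : ∑ s, (v (l' s) - v (bar (l' s))) / 2 = ∑ s, v (l' s) := by
    refine Finset.sum_congr rfl fun s _ => ?_
    rw [hv1 _ (h3 s)]
    ring
  have h6 := hsum fun l => (v l - v (bar l)) / 2
  beta_reduce at h6
  rw [h5] at h6
  rw [h6] at h1
  have hk' : (0 : ℝ) < k := by exact_mod_cast hk
  by_contra hcon
  push Not at hcon
  have h7 := mul_nonneg hk'.le hcon
  linarith

end Pool.Agent.N190.Bc
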