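import Pool.Agent.R908.AnisoDefs

/-!
# Block systems in the transcendental cohomology: definitions
-/

open CategoryTheory AlgebraicGeometry

universe u v

namespace Pool.Agent.N190.Bc

open Pool.Agent.H914 Pool.Agent.H914.VarClass Pool.Agent.H914.VarClass.Obj
  Pool.Agent.H914.WeilCohomology Pool.Agent.R908

section Abstract

variable {K A B Λ : Type*}

/-- The subspace `T` of the algebra `A` is the direct sum of the images of the orthogonal idempotents
`p l`, which are `K`-linear combinations of the operators in `C`; the adjoint of `p l` for the form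
`tr (x y)` is `p (bar l)`; and the images of the `p l` are irreducible under `C` and `G`: every
subspace of `T` which is stable under these and contains a nonzero element of the image of `p l`
contains the whole image. -/
structure BlockSystem [Field K] [Ring A] [Algebra K A] [Fintype Λ] (T : Submodule K A) (tr : A →ₗ[K] K)
    (C : Set (Module.End K A)) (G : Set (A → A)) (bar : Λ → Λ) (p : Λ → Module.End K A) :
    Prop where
  algebraic : ∀ l, p l ∈ Submodule.span K C
  sum : ∀ x ∈ T, ∑ l, p l x = x
  idem : ∀ l, ∀ x ∈ T, p l (p l x) = p l x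
  ortho : ∀ l l', l ≠ l' → ∀ x ∈ T, p l (p l' x) = 0
  involutive : ∀ l, bar (bar l) = l
  adjoint : ∀ l, ∀ x ∈ T, ∀ y ∈ T, tr (p l x * y) = tr (x * p (bar l) y)
  irreducible : ∀ U : Submodule K A, U ≤ T → (∀ φ ∈ C, ∀ x ∈ U, φ x ∈ U) →
    (∀ σ ∈ G, ∀ x ∈ U, σ x ∈ U) → ∀ l, (∃ x ∈ U, x ≠ 0 ∧ p l x = x) → ∀ y ∈ T, p l y = y → y ∈ U

/-- The element `x` is in the part with the label `o`: it is in `S` if `o = none`, and it is in `T`
and in the image of the idempotent `p l` if `o = some l`. -/
def IsInPart [Field K] [Ring A] [Algebra K A] (S : Set A) (T : Submodule K A)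
    (p : Λ → Module.End K A) (o : Option Λ) (x : A) : Prop :=
  (o = none ∧ x ∈ S) ∨ ∃ l, o = some l ∧ x ∈ T ∧ p l x = x

/-- The labels `l 0, …, l (n - 1)` are balanced: they form the same multiset as the conjugate labels
`bar (l 0), …, bar (l (n - 1))`, where the conjugate of `none` is `none`. -/
def Balanced (bar : Λ → Λ) {n : ℕ} (l : Fin n → Option Λ) : Prop :=
  Finset.univ.val.map l = Finset.univ.val.map fun i => (l i).map bar

/-- If the value `f t y` is not zero, and `t i` is in the part with the label `l i` for all `i`, then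
the sum of the weights `v (l i)` is negative, and the labels are not balanced. -/
def NegativeValues [Zero K] (part : Option Λ → A → Prop) (bar : Λ → Λ) (v : Option Λ → ℝ) {n : ℕ}
    (f : (Fin n → A) → B → K) : Prop :=
  ∀ (l : Fin n → Option Λ) (t : Fin n → A), (∀ i, part (l i) (t i)) → ∀ y, f t y ≠ 0 →
    ∑ i, v (l i) < 0 ∧ ¬ Balanced bar l

/-- Some value `f t y` is not zero, where `t i` is in the part with some label for all `i`. -/
def HasValue [Zero K] (part : Option Λ → A → Prop) {n : ℕ} (f : (Fin n → A) → B → K) : Prop :=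
  ∃ (l : Fin n → Option Λ) (t : Fin n → A), (∀ i, part (l i) (t i)) ∧ ∃ y, f t y ≠ 0

end Abstract

variable {k : Type u} [Field k] {𝒱 : VarClass k} {ops : CycleOps 𝒱}

/-- The transcendental cohomology of `X` is zero in all degrees which do not have the parity
of `w`. -/
def HasParity (W : WeilCohomology.{u, v} ops) (X : 𝒱.Obj) (w : ℕ) : Prop :=
  ∀ i, Odd (i + w) → ∀ x ∈ W.gr X i, x ∈ transcendental W X → x = 0

/-- The operators of degree `0` on the cohomology of `X` given by the cycles with rational coefficients
on `X × X`. -/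
def cycleOps (W : WeilCohomology.{u, v} ops) (X : 𝒱.Obj) : Set (Module.End W.K (W.H X)) :=
  (fun z => W.corr (W.cl (X.prod X) z)) '' {z | (X.prod X).IsCyc X.dim z}

/-- The operators of the symmetries in `𝒢` on the cohomology of `X`. -/
def symmetryOps {W : WeilCohomology.{u, v} ops} (𝒢 : Set (Symmetry W)) (X : 𝒱.Obj) :
    Set (W.H X → W.H X) :=
  {e | ∃ S ∈ 𝒢, e = S.σ X}

/-- A block system in the transcendental cohomology of `X`, with the cup product form, the algebraic
correspondences of degree `0` and the symmetries in `𝒢`. -/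
def IsTransBlockSystem {W : WeilCohomology.{u, v} ops} (𝒢 : Set (Symmetry W)) (X : 𝒱.Obj)
    {Λ : Type} [Fintype Λ] (bar : Λ → Λ) (p : Λ → Module.End W.K (W.H X)) : Prop :=
  BlockSystem (transcendental W X) (W.tr X) (cycleOps W X) (symmetryOps 𝒢 X) bar p

/-- The product `X ^ n × Y`. -/
noncomputable def powTimes (X Y : 𝒱.Obj) : ℕ → 𝒱.Obj
  | 0 => Y
  | n + 1 => X.prod (powTimes X Y n)

/-- The external product of the class `t` on `X` and of the class `y` on `Y`: the product of the
pull-backs of `y` and of `t`, in this order. -/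
noncomputable def cross (W : WeilCohomology.{u, v} ops) {X Y : 𝒱.Obj} (t : W.H X) (y : W.H Y) :
    W.H (X.prod Y) :=
  W.map (snd X Y) y * W.map (fst X Y) t

/-- The external product of the classes `t 0`, …, `t (n - 1)` on `X` and of the class `y` on `Y`: a
class on `X ^ n × Y`. -/
noncomputable def extProd (W : WeilCohomology.{u, v} ops) {X Y : 𝒱.Obj} (y : W.H Y) :
    ∀ n : ℕ, (Fin n → W.H X) → W.H (powTimes X Y n)
  | 0, _ => y
  | n + 1, t => cross W (t 0) (extProd W y n (fun i => t i.succ))

/-- The value of the class of the cycle `z` on `X ^ n × Y` on the external product of the classes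
`t 0`, …, `t (n - 1)` on `X` and of the class `y` on `Y`. -/
noncomputable def value (W : WeilCohomology.{u, v} ops) {X Y : 𝒱.Obj} {n : ℕ}
    (z : (powTimes X Y n).Cycles) (t : Fin n → W.H X) (y : W.H Y) : W.K :=
  W.tr _ (extProd W y n t * W.cl _ z)

/-- The class `x` is in the part of `H(X)` with the label `o`: it is the class of an algebraic cycle
of some codimension, if `o = none`, and an element of the block with the label `l` of the
transcendental cohomology, if `o = some l`. -/
def InPart (W : WeilCohomology.{u, v} ops) (X : 𝒱.Obj) {Λ : Type}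
    (p : Λ → Module.End W.K (W.H X)) : Option Λ → W.H X → Prop :=
  IsInPart (⋃ j, algClasses W X j) (transcendental W X) p

/-- The intersection numbers of the cycle `z` of codimension `j` with all cycles of complementary
codimension vanish. -/
def NumTrivial (ops : CycleOps 𝒱) (X : 𝒱.Obj) (j : ℕ) (z : X.Cycles) : Prop :=
  j ≤ X.dim ∧ X.IsCyc j z ∧ ∀ w, X.IsCyc (X.dim - j) w → X.V.degCycle (ops.mul z w) = 0

end Pool.Agent.N190.Bc
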