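import Pool.Agent.R908.KnI
import Pool.Agent.R908.KqC
import Pool.Agent.N190.Bc.Core
import Pool.Agent.N190.Bc.Defs

/-!
# The weights of the components of numerically trivial classes on `X ^ n × Y`
-/

open CategoryTheory AlgebraicGeometry TensorProduct Function

universe u v w w'

namespace Pool.Agent.N190.Bc

open Pool.Agent.H914 Pool.Agent.H914.VarClass Pool.Agent.H914.VarClass.Obj
  Pool.Agent.H914.WeilCohomology Pool.Agent.R908 Km

variable {k : Type u} [Field k] {𝒱 : VarClass k} {ops : CycleOps 𝒱}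
  {W : WeilCohomology.{u, v} ops} {X Y Z : 𝒱.Obj}

/-- Cup product with an algebraic class. -/
lemma kop_mulLeft {j : ℤ} {c : W.H X} (hc : c ∈ spanCycles W X j) :
    LinearMap.mulLeft W.K c ∈ KOp W X X j := by
  induction hc using Submodule.span_induction with
  | mem c hc =>
    obtain ⟨p, hp, z, hz, rfl⟩ := hc
    have h1 : LinearMap.mulLeft W.K (W.cl X z) = W.corr (W.cl _ (ops.push (diag X) z)) := by
      apply LinearMap.ext
      intro a
      rw [W.cl_push, corr_diag, LinearMap.mulLeft_apply]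
    rw [h1]
    exact KOp.gen (p := X.dim + p) (by push_cast; rw [hp])
      (ops.push_mem _ hz (by simp only [dim_prod]; omega))
  | zero =>
    have : LinearMap.mulLeft W.K (0 : W.H X) = 0 := by
      apply LinearMap.ext
      intro a
      rw [LinearMap.mulLeft_apply, zero_mul, LinearMap.zero_apply]
    rw [this]
    exact Submodule.zero_mem _
  | add x y _ _ hx hy =>
    have : LinearMap.mulLeft W.K (x + y) = LinearMap.mulLeft W.K x + LinearMap.mulLeft W.K y := by
      apply LinearMap.ext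
      intro a
      rw [LinearMap.add_apply, LinearMap.mulLeft_apply, LinearMap.mulLeft_apply,
        LinearMap.mulLeft_apply, add_mul]
    rw [this]
    exact Submodule.add_mem _ hx hy
  | smul r x _ hx =>
    have : LinearMap.mulLeft W.K (r • x) = r • LinearMap.mulLeft W.K x := by
      apply LinearMap.ext
      intro a
      rw [LinearMap.smul_apply, LinearMap.mulLeft_apply, LinearMap.mulLeft_apply,
        smul_mul_assoc]
    rw [this]
    exact Submodule.smul_mem _ _ hx

/-- The slice by an algebraic class is an algebraic operator. -/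
lemma kop_sl {j : ℤ} {a : W.H X} (ha : a ∈ spanCycles W X j) :
    ∃ δ, sl W (bil W X a) ∈ KOp W (X.prod Z) Z δ := by
  have h1 : sl W (bil W X a) = W.push (snd X Z) ∘ₗ
      LinearMap.mulLeft W.K (W.map (fst X Z) a) := by
    apply LinearMap.ext
    intro y
    rw [sl_bil]
    rfl
  rw [h1]
  exact ⟨_, KOp.comp (KOp.pushHom _) (kop_mulLeft (span_map _ ha))⟩

/-- Contraction with an algebraic class in one slot. -/
lemma contr : ∀ (n : ℕ) (s : Fin (n + 1)) {j : ℤ} {a : W.H X}, a ∈ spanCycles W X j →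
    ∃ (δ : ℤ) (C : W.H (pX X Y (n + 1)) →ₗ[W.K] W.H (pX X Y n)),
      C ∈ KOp W (pX X Y (n + 1)) (pX X Y n) δ ∧
      ∀ (f : Fin (n + 1) → (W.H X →ₗ[W.K] W.K)) (g : W.H Y →ₗ[W.K] W.K), f s = bil W X a →
        msl W (n + 1) f g = msl W n (fun i => f (s.succAbove i)) g ∘ₗ C := by
  intro n
  induction n with
  | zero =>
    intro s j a ha
    obtain ⟨δ, hδ⟩ := kop_sl (W := W) (Z := Y) ha
    refine ⟨δ, sl W (bil W X a), hδ, fun f g hf => ?_⟩
    rw [Fin.fin_one_eq_zero s] at hf
    rw [msl_succ, hf]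
    rfl
  | succ n ih =>
    intro s j a ha
    refine Fin.cases ?_ (fun s => ?_) s
    · obtain ⟨δ, hδ⟩ := kop_sl (W := W) (Z := pX X Y (n + 1)) ha
      refine ⟨δ, sl W (bil W X a), hδ, fun f g hf => ?_⟩
      rw [msl_succ, hf]
      rfl
    · obtain ⟨δ, C, hC, h⟩ := ih s ha
      refine ⟨0 + δ, extHom W LinearMap.id C, KOp.extHom (KOp.id _) hC, fun f g hf => ?_⟩
      have h1 := h (fun i => f i.succ) g hf
      have h2 : msl W (n + 1 + 1) f g = tens W (f 0) (msl W (n + 1) (fun i => f i.succ) g) := rfl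
      have h3 : msl W (n + 1) (fun i => f (s.succ.succAbove i)) g =
          tens W (f 0) (msl W n (fun i => f (s.succAbove i).succ) g) := by
        rw [msl_succ]
        congr 2
        funext i
        rw [Fin.succ_succAbove_succ]
      rw [h2, h3, h1]
      have h4 := tens_extHom (W := W) (f 0) (msl W n (fun i => f (s.succAbove i).succ) g)
        (LinearMap.id : W.H X →ₗ[W.K] W.H X) C
      rw [LinearMap.comp_id] at h4
      exact h4.symm

section Split

variable (s : TSplit W X) {w : ℕ} (hw : HasParity W X w)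

/-- The transcendental part. -/
noncomputable def MT : Mot W := ⟨X, s.eT, s.mem0, s.idem⟩

include hw in
lemma eT_odd {i : ℕ} {a : W.H X} (ha : a ∈ W.gr X i) (hodd : Odd (i + w)) : s.eT a = 0 :=
  hw i hodd _ (Mot.hom_deg0 s.mem0 ha) (s.mem_T a)

include hw in
/-- The transcendental part is self-dual. -/
lemma MT_self : SelfDual (MT s) w ((-1 : W.K) ^ w) s.eT s.eT := by
  set κ : W.H X →ₗ[W.K] W.H X := ((-1 : W.K) ^ w) • LinearMap.id with hκd
  have hκ : κ ∈ KOp W X X 0 := Submodule.smul_mem _ _ (KOp.id X)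
  have hs : ∀ i, ∀ a ∈ W.gr X i, a ∈ transcendental W X → κ a = (-1 : W.K) ^ i • a := by
    intro i a ha haT
    rcases Nat.even_or_odd (i + w) with h | h
    · have h1 : (-1 : W.K) ^ w = (-1) ^ i := by
        have h2 : (-1 : W.K) ^ (i + w) = 1 := h.neg_one_pow
        have h3 : (-1 : W.K) ^ i * (-1) ^ i = 1 := by
          rw [← mul_pow, neg_one_mul, neg_neg, one_pow]
        rw [pow_add] at h2
        calc (-1 : W.K) ^ w = ((-1) ^ i * (-1) ^ i) * (-1) ^ w := by rw [h3, one_mul]
          _ = (-1) ^ i := by rw [mul_assoc, h2, mul_one]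
      rw [hκd, LinearMap.smul_apply, LinearMap.id_apply, h1]
    · rw [hw i h a ha haT, map_zero, smul_zero]
  have hew : s.ew κ w = s.eT := by
    apply gr_ext (W.isInternal X)
    intro i a ha
    rw [s.ew_apply hs w ha]
    split_ifs with h
    · rfl
    · exact (eT_odd s hw ha (Nat.not_even_iff_odd.1 h)).symm
  have h := s.Mw_self hκ hs w
  rw [hew] at h
  exact
    { θ_mem := ⟨0, s.mem0⟩
      θ'_mem := ⟨0, s.mem0⟩
      par := fun i a ha hodd => eT_odd s hw ha hodd
      θ_e := s.idem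
      inv := s.idem
      symm := h.symm
      sq := h.sq }

variable {𝒢 : Set (Symmetry W)} {Λ : Type} [Fintype Λ] {bar : Λ → Λ}
  {p : Λ → Module.End W.K (W.H X)} (hp : IsTransBlockSystem 𝒢 X bar p)

include hp in
lemma p_mem (l : Λ) : p l ∈ KOp W X X 0 := span_cycleOperators_le (hp.algebraic l)

include hp in
lemma p_T (l : Λ) {x : W.H X} (hx : x ∈ transcendental W X) : p l x ∈ transcendental W X :=
  KOp.trans (p_mem hp l) hx

include hp in
/-- The blocks. -/
lemma MT_blocks : Blocks (MT s) s.eT (Finset.univ : Finset Λ) bar (fun l => p l ∘ₗ s.eT) where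
  mem l := ⟨_, KOp.comp (p_mem hp l) s.mem0⟩
  e_p l := by
    apply LinearMap.ext
    intro (x : W.H X)
    exact s.fix _ (p_T hp l (s.mem_T x))
  p_e l := by
    apply LinearMap.ext
    intro (x : W.H X)
    change p l (s.eT (s.eT x)) = p l (s.eT x)
    rw [s.fix _ (s.mem_T x)]
  idem l := by
    apply LinearMap.ext
    intro (x : W.H X)
    change p l (s.eT (p l (s.eT x))) = p l (s.eT x)
    rw [s.fix _ (p_T hp l (s.mem_T x)), hp.idem l _ (s.mem_T x)]
  ortho l l' hl := by
    apply LinearMap.ext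
    intro (x : W.H X)
    change p l (s.eT (p l' (s.eT x))) = 0
    rw [s.fix _ (p_T hp l' (s.mem_T x)), hp.ortho l l' hl _ (s.mem_T x)]
  sum := by
    apply LinearMap.ext
    intro (x : W.H X)
    rw [LinearMap.sum_apply]
    exact hp.sum _ (s.mem_T x)
  bb := hp.involutive
  adj := by
    intro l (x : W.H X) (y : W.H X)
    change W.tr X (p l (s.eT x) * s.eT y) = W.tr X (x * s.eT (p (bar l) (s.eT y)))
    rw [← s.adj x, hp.adjoint l _ (s.mem_T x) _ (s.mem_T y)]

include s hw hp in
/-- **The weights, for labels of blocks.** -/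
theorem weights_blocks {𝒴 : Set 𝒱.Obj} (hY : ∀ Z, IsProductOf 𝒴 Z → HomEqNum W Z) (N : ℕ) :
    ∃ v : Λ → ℝ, (∀ l, v (bar l) = -v l) ∧ ∀ n ≤ N, ∀ Y, IsProductOf 𝒴 Y →
      ∀ (j : ℤ) (α : W.H (pX X Y n)), α ∈ spanCycles W (pX X Y n) j → NumTriv W _ α →
      ∀ (l : Fin n → Λ) (t : Fin n → W.H X),
        (∀ i, t i ∈ transcendental W X ∧ p (l i) (t i) = t i) → ∀ y : W.H Y,
        msl W n (fun i => bil W X (t i)) (bil W Y y) α ≠ 0 → ∑ i, v (l i) < 0 := by
  have hself := MT_self s hw
  have hb := MT_blocks s hp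
  obtain ⟨v, hv1, hv2⟩ := core hself hb (Q := QP W 𝒴)
    (by
      rintro B B' ⟨Z, hZ, rfl⟩ ⟨Z', hZ', rfl⟩
      exact ⟨Z.prod Z', IsProductOf.prod hZ hZ', whole_tensor Z Z'⟩)
    (by
      rintro B ⟨Z, hZ, rfl⟩
      exact num_whole (hY Z hZ)) 𝒢 (fun S _ => s.sym S)
    (by
      intro S _
      refine ⟨1, one_ne_zero, fun (a : W.H X) => ?_⟩
      rw [one_smul]
      exact (s.sym S a).symm)
    (by
      rintro S _ B ⟨Z, hZ, rfl⟩ a
      rfl)
    (by
      intro (U : Submodule W.K (W.H X)) hU hst hS' l hl (y : W.H X) hy'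
      have hfix : ∀ x ∈ U, s.eT x = x := by
        intro x hx
        obtain ⟨y, hy⟩ := hU hx
        rw [← hy]
        exact s.fix _ (s.mem_T y)
      have hUT : U ≤ transcendental W X := by
        intro x hx
        rw [← hfix x hx]
        exact s.mem_T x
      obtain ⟨x, hx, hx0, hxl⟩ := hl
      have hy : p l (s.eT y) = y := hy'
      have hxl' : p l (s.eT x) = x := hxl
      have hyT : y ∈ transcendental W X := by
        rw [← hy]
        exact p_T hp l (s.mem_T y)
      refine hp.irreducible U hUT ?_ ?_ l ⟨x, hx, hx0, ?_⟩ y hyT ?_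
      · rintro _ ⟨z, hz, rfl⟩ x hx
        have hφ0 : W.corr (W.cl _ z) ∈ KOp W X X 0 := KOp.gen (by rw [add_zero]) hz
        have h1 : s.eT (W.corr (W.cl _ z) x) = W.corr (W.cl _ z) x :=
          s.fix _ (KOp.trans hφ0 (hUT hx))
        rw [← h1]
        exact hst _ _ hφ0 x hx
      · rintro _ ⟨S, hS, rfl⟩ x hx
        exact hS' S hS x hx
      · rwa [hfix x hx] at hxl'
      · rwa [s.fix _ hyT] at hy) N
  refine ⟨v, hv1, ?_⟩
  intro n hn Y hYY j α hα hnα l t ht y hne
  obtain ⟨q, y, hy, hne⟩ : ∃ q, ∃ y ∈ W.gr Y q,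
      msl W n (fun i => bil W X (t i)) (bil W Y y) α ≠ 0 := by
    by_contra hcon
    push Not at hcon
    apply hne
    refine gr_induction (W.isInternal Y) (p := fun y =>
      msl W n (fun i => bil W X (t i)) (bil W Y y) α = 0) ?_ ?_ y
    · intro q y hy
      exact hcon q y hy
    · intro y y' h1 h2
      rw [map_add, msl_add_g, LinearMap.add_apply, h1, h2, add_zero]
  have hpar : Par W q (bil W Y y) := by
    intro i a ha hodd
    rw [bil_apply]
    refine W.tr_eq_zero (W.mul_mem hy ha) ?_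
    intro h
    rw [add_comm i q, h] at hodd
    exact (Nat.not_odd_iff_even.2 (even_two_mul _)) hodd
  have hfun : (fun i : Fin n => bil W X (t i)) = fun i => psi (MT s) s.eT (t i) := by
    funext i
    apply LinearMap.ext
    intro (x : W.H X)
    change W.tr X (t i * x) = W.tr X (t i * s.eT x)
    exact s.tr_right (ht i).1 x
  refine hv2 n hn (fun v => msl W n (fun i => psi (MT s) s.eT (v i)) (bil W Y y) α)
    (FA_gen ⟨whole W Y, q, bil W Y y, j, α, ⟨Y, hYY, rfl⟩, hpar, rfl, hα, hnα, rfl⟩)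
    (fun i => ⟨t i, t i, s.fix _ (ht i).1⟩) l ?_ ?_
  · intro i
    change p (l i) (s.eT (t i)) = t i
    rw [s.fix _ (ht i).1]
    exact (ht i).2
  · beta_reduce
    rw [hfun] at hne
    exact hne

end Split

end Pool.Agent.N190.Bc
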