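import Pool.Agent.N190.Bc.Geo

/-!
# The weights of the components of numerically trivial cycles on `X ^ n × Y`
-/

open CategoryTheory AlgebraicGeometry TensorProduct Function

universe u v w w'

namespace Pool.Agent.N190.Bc

open Pool.Agent.H914 Pool.Agent.H914.VarClass Pool.Agent.H914.VarClass.Obj
  Pool.Agent.H914.WeilCohomology Pool.Agent.R908 Km

variable {k : Type u} [Field k] {𝒱 : VarClass k} {ops : CycleOps 𝒱}
  {W : WeilCohomology.{u, v} ops} {X Y Z : 𝒱.Obj}

/-- All linear forms are given by classes. -/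
lemma bil_surj (f : W.H X →ₗ[W.K] W.K) : ∃ u, bil W X u = f := by
  have hinj : Function.Injective (bil W X) := by
    rw [injective_iff_map_eq_zero]
    intro a ha
    apply W.nondeg
    intro b
    exact congrArg (fun F => F b) ha
  have h1 : Function.Surjective (bil W X) :=
    (LinearMap.injective_iff_surjective_of_finrank_eq_finrank
      (Subspace.dual_finrank_eq (K := W.K) (V := W.H X)).symm).1 hinj
  exact h1 f

section Split

variable (s : TSplit W X) {w : ℕ} (hw : HasParity W X w)
  {𝒢 : Set (Symmetry W)} {Λ : Type} [Fintype Λ] {bar : Λ → Λ}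
  {p : Λ → Module.End W.K (W.H X)} (hp : IsTransBlockSystem 𝒢 X bar p)

include s hw hp in
/-- **The weights, for all labels.** -/
theorem weights_labels {𝒴 : Set 𝒱.Obj} (hY : ∀ Z, IsProductOf 𝒴 Z → HomEqNum W Z) (N : ℕ) :
    ∃ v : Option Λ → ℝ, v none = 0 ∧ (∀ o, v (o.map bar) = -v o) ∧ ∀ n ≤ N, ∀ Y,
      IsProductOf 𝒴 Y → ∀ (j : ℤ) (α : W.H (pX X Y n)), α ∈ spanCycles W (pX X Y n) j →
      NumTriv W _ α → ∀ (l : Fin n → Option Λ) (t : Fin n → W.H X),
        (∀ i, InPart W X p (l i) (t i)) → ∀ y : W.H Y,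
        msl W n (fun i => bil W X (t i)) (bil W Y y) α ≠ 0 → ∑ i, v (l i) < 0 := by
  obtain ⟨v, hv1, hv2⟩ := weights_blocks s hw hp hY N
  refine ⟨fun o => o.elim 0 v, rfl, fun o => ?_, ?_⟩
  · cases o with
    | none => exact neg_zero.symm
    | some l => exact hv1 l
  intro n
  induction n with
  | zero =>
    intro hn Y hYY j α hα hnα l t ht y hne
    have h1 := hv2 0 hn Y hYY j α hα hnα (fun i => i.elim0) t (fun i => i.elim0) y hne
    simp at h1
  | succ n ih =>
    intro hn Y hYY j α hα hnα l t ht y hne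
    by_cases hall : ∀ i, ∃ l', l i = some l'
    · choose l' hl' using hall
      have h1 := hv2 (n + 1) hn Y hYY j α hα hnα l' t (fun i => by
        rcases ht i with ⟨h, -⟩ | ⟨l'', h, h'⟩
        · rw [hl' i] at h
          cases h
        · rw [hl' i] at h
          cases h
          exact h') y hne
      have h2 : ∀ i, (l i).elim 0 v = v (l' i) := fun i => by rw [hl' i]; rfl
      rw [Finset.sum_congr rfl fun i _ => h2 i]
      exact h1
    · push Not at hall
      obtain ⟨r, hr⟩ := hall
      have hr' : l r = none := by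
        cases h : l r with
        | none => rfl
        | some l' => exact absurd h (hr l')
      obtain ⟨j', hj'⟩ : ∃ j' : ℤ, t r ∈ spanCycles W X j' := by
        rcases ht r with ⟨-, h⟩ | ⟨l'', h, -⟩
        · obtain ⟨j', h⟩ := Set.mem_iUnion.1 h
          exact ⟨j', alg_mem_span h⟩
        · exact absurd h (hr l'')
      obtain ⟨δ, C, hC, h⟩ := contr (W := W) (Y := Y) n r hj'
      rw [h _ _ rfl, LinearMap.comp_apply] at hne
      have h1 := ih (Nat.le_of_succ_le hn) Y hYY _ (C α) (KOp.map_span hC hα)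
        (NumTriv.op hC hnα) (fun i => l (r.succAbove i)) (fun i => t (r.succAbove i))
        (fun i => ht _) y hne
      rw [Fin.sum_univ_succAbove _ r, hr']
      change (0 : ℝ) + _ < 0
      rw [zero_add]
      exact h1

include s hp in
/-- A class all components of which vanish is zero. -/
theorem eq_zero_of_parts : ∀ (n : ℕ) (α : W.H (powTimes X Y n)),
    (∀ (l : Fin n → Option Λ) (t : Fin n → W.H X), (∀ i, InPart W X p (l i) (t i)) →
      ∀ y : W.H Y, W.tr _ (extProd W y n t * α) = 0) → α = 0 := by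
  intro n
  induction n with
  | zero =>
    intro α h
    apply nondeg_right
    intro b
    exact h (fun i => i.elim0) (fun i => i.elim0) (fun i => i.elim0) b
  | succ n ih =>
    intro (α : W.H (X.prod (powTimes X Y n))) h
    have hpart : ∀ o u, InPart W X p o u → sl W (bil W X u) α = 0 := by
      intro o u hu
      apply ih
      intro l t ht y
      have h1 := h (Fin.cons o l) (Fin.cons u t) (fun i => by
        refine Fin.cases ?_ (fun i => ?_) i
        · exact hu
        · exact ht i) y
      have h2 : W.tr (X.prod (powTimes X Y n)) (W.map (snd X (powTimes X Y n))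
          (extProd W y n t) * W.map (fst X (powTimes X Y n)) u * α) = 0 := h1
      rw [mul_assoc, tr_snd_left, ← sl_bil] at h2
      exact h2
    have hu : ∀ u, sl W (bil W X u) α = 0 := by
      intro u
      have hL : ∀ x y : W.H X, sl W (bil W X (x + y)) α =
          sl W (bil W X x) α + sl W (bil W X y) α := by
        intro x y
        rw [sl_bil, sl_bil, sl_bil, map_add, add_mul, map_add]
      have h0 : sl W (bil W X (0 : W.H X)) α = 0 := by
        rw [sl_bil, map_zero, zero_mul, map_zero]
      let L : W.H X →+ W.H (powTimes X Y n) :=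
        { toFun := fun u => sl W (bil W X u) α
          map_zero' := h0
          map_add' := hL }
      have hLs : ∀ (c : W.K) (x : W.H X), L (c • x) = c • L x := by
        intro c x
        change sl W (bil W X (c • x)) α = c • sl W (bil W X x) α
        rw [sl_bil, sl_bil, map_smul, smul_mul_assoc, map_smul]
      have hLu : L u = 0 := by
        have e1 : u = ∑ j, s.eA j u + ∑ l, p l (s.eT u) := by
          rw [hp.sum _ (s.mem_T u)]
          exact s.decomp u
        rw [e1, map_add, map_sum, map_sum, Finset.sum_eq_zero, Finset.sum_eq_zero, add_zero]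
        · intro l _
          exact hpart (some l) _ (Or.inr ⟨l, rfl, p_T hp l (s.mem_T u),
            hp.idem l _ (s.mem_T u)⟩)
        · intro j _
          obtain ⟨m, c, c', l, l', hc, hc', he⟩ := s.eA_alg j
          rw [he, map_sum]
          refine Finset.sum_eq_zero fun i _ => ?_
          have h5 : L (c' i) = 0 :=
            hpart none _ (Or.inl ⟨rfl, Set.mem_iUnion.2 ⟨l', hc' i⟩⟩)
          rw [hLs, h5, smul_zero]
      exact hLu
    refine sl_sep (y := α) ?_
    intro f
    obtain ⟨u, rfl⟩ := bil_surj f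
    exact hu u

end Split

/-- Comparison with the products used in the library. -/
lemma sig : ∀ (n : ℕ) (t : Fin n → W.H X) (y : W.H Y),
    (⟨powTimes X Y n, extProd W y n t⟩ : Σ Z : 𝒱.Obj, W.H Z) = ⟨pX X Y n, tv W n t y⟩ := by
  intro n
  induction n with
  | zero => exact fun _ _ => rfl
  | succ n ih =>
    intro t y
    exact congrArg (fun q : Σ Z : 𝒱.Obj, W.H Z => (⟨X.prod q.1,
      W.map (snd X q.1) q.2 * W.map (fst X q.1) (t 0)⟩ : Σ Z : 𝒱.Obj, W.H Z))
      (ih (fun i => t i.succ) y)

/-- **The weights of the components of numerically trivial cycles.** -/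
theorem main (𝒢 : Set (Symmetry W)) {w : ℕ} (hX : HomEqNum W X) (hw : HasParity W X w)
    {Λ : Type} [Fintype Λ] (bar : Λ → Λ) (p : Λ → Module.End W.K (W.H X))
    (hp : IsTransBlockSystem 𝒢 X bar p) {𝒴 : Set 𝒱.Obj}
    (hY : ∀ Z, IsProductOf 𝒴 Z → HomEqNum W Z) (N : ℕ) :
    ∃ v : Option Λ → ℝ, v none = 0 ∧ (∀ o, v (o.map bar) = -v o) ∧ ∀ n ≤ N, ∀ Y,
      IsProductOf 𝒴 Y → ∀ (j : ℕ) (z : (powTimes X Y n).Cycles),
        NumTrivial ops (powTimes X Y n) j z →
        NegativeValues (InPart W X p) bar v (value W z) ∧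
          (W.cl _ z ≠ 0 → HasValue (InPart W X p) (value W z)) := by
  obtain ⟨s⟩ := exists_tSplit hX
  obtain ⟨v, hv0, hv1, hv2⟩ := weights_labels s hw hp hY N
  refine ⟨v, hv0, hv1, fun n hn Y hYY j z hz => ⟨fun l t ht y hne => ?_, fun hne => ?_⟩⟩
  · have key : ∀ q : Σ Z : 𝒱.Obj, W.H Z, q = ⟨pX X Y n, tv W n t y⟩ → ∀ (j : ℕ)
        (z : q.1.Cycles), NumTrivial ops q.1 j z → W.tr q.1 (q.2 * W.cl q.1 z) ≠ 0 →
        ∑ i, v (l i) < 0 := by
      rintro _ rfl j z hz hne
      have hα : W.cl _ z ∈ spanCycles W (pX X Y n) (j : ℤ) :=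
        Submodule.subset_span ⟨j, rfl, z, hz.2.1, rfl⟩
      have hnα := numTriv_cl (W := W) hz.1 hz.2.1 hz.2.2
      change W.tr (pX X Y n) (tv W n t y * W.cl _ z) ≠ 0 at hne
      rw [tr_tv] at hne
      exact hv2 n hn Y hYY j _ hα hnα l t ht y hne
    have h1 := key _ (sig n t y) j z hz hne
    refine ⟨h1, fun hbal => ?_⟩
    have h2 : ∑ i, v (l i) = ∑ i, v ((l i).map bar) := by
      have h5 := congrArg (fun s : Multiset (Option Λ) => (s.map v).sum) hbal
      beta_reduce at h5
      rw [Multiset.map_map, Multiset.map_map] at h5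
      exact h5
    have h3 : ∑ i, v (Option.map bar (l i)) = -∑ i, v (l i) := by
      rw [← Finset.sum_neg_distrib]
      exact Finset.sum_congr rfl fun i _ => hv1 (l i)
    linarith
  · by_contra hcon
    refine hne (eq_zero_of_parts s hp n _ fun l t ht y => ?_)
    by_contra h
    exact hcon ⟨l, t, ht, y, h⟩

end Pool.Agent.N190.Bc
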